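import Mathlib
import Pool.Agent.H485R3.Hodge.Exotic
import Pool.Agent.H485R3.Kron
import Pool.Agent.H485R3.LineMain

/-!
# Products of Weil numbers of K3 type: definitions
-/

set_option autoImplicit false

namespace Pool.Agent.H485R3.Exact

open NumberField NumberField.IsCMField

/-- `π` is a Weil number for `p ^ a` whose slopes are all in the middle, except for the slope at
`x`, which is smaller, and the slope at the complex conjugate of `x`. -/
def IsK3Type {K : Type*} [Field K] [NumberField K] [IsCMField K] (p : ℕ) [Fact p.Prime] (a : ℕ)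
    (x : K →+* ℚ_[p]) (π : K) : Prop :=
  IsIntegral ℤ π ∧ (∀ φ : K →+* ℂ, ‖φ π‖ ^ 2 = (p : ℝ) ^ a) ∧ ((p : ℝ) ^ a)⁻¹ < ‖x π‖ ^ 2 ∧
    ∀ y : K →+* PadicAlgCl p, y ≠ (algebraMap ℚ_[p] (PadicAlgCl p)).comp x →
      y.comp (complexConj K : K →+* K) ≠ (algebraMap ℚ_[p] (PadicAlgCl p)).comp x →
      ‖y π‖ ^ 2 = ((p : ℝ) ^ a)⁻¹

/-- The multilinear form `ψ` in variables `v k ∈ V (t k)` is a product of pairings: there is a
perfect matching `τ` of the variables, matched variables being of the same type `t k`, and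
`ψ v = ∏ B k (v k) (v (τ k))`, the product over the matched pairs, with bilinear forms `B k` that
satisfy `B k (F x, F y) = q B k (x, y)`, where `q = q (t k)`. -/
def IsProductOfPairings {I : Type*} {Ω : Type*} [Field Ω] (V : I → Type*)
    [∀ i, AddCommGroup (V i)] [∀ i, Module Ω (V i)] (F : ∀ i, V i →ₗ[Ω] V i) (q : I → Ω)
    {n : ℕ} (t : Fin n → I) (ψ : MultilinearMap Ω (fun k => V (t k)) Ω) : Prop :=
  ∃ (τ : Equiv.Perm (Fin n)) (B : ∀ k, V (t k) →ₗ[Ω] V (t (τ k)) →ₗ[Ω] Ω),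
    (∀ k, τ (τ k) = k) ∧ (∀ k, τ k ≠ k) ∧ (∀ k, t (τ k) = t k) ∧
    (∀ k x y, B k (F (t k) x) (F (t (τ k)) y) = q (t k) * B k x y) ∧
    ∀ v, ψ v = ∏ k with k < τ k, B k (v k) (v (τ k))

/-- All Tate classes, over all finite extensions, in multilinear forms on Frobenius modules `V i`
with eigenvalues conjugate to `π i` are combinations of products of pairings. -/
def PairingsGenerate {I : Type} {K : I → Type} [∀ i, Field (K i)] (π : ∀ i, K i) (q : I → ℕ) :
    Prop :=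
  ∀ {Ω : Type} [Field Ω] [IsAlgClosed Ω] [CharZero Ω] (V : I → Type) [∀ i, AddCommGroup (V i)]
    [∀ i, Module Ω (V i)] [∀ i, FiniteDimensional Ω (V i)] (F : ∀ i, V i →ₗ[Ω] V i),
    (∀ i, Submodule.span Ω {v : V i | ∃ σ : K i →+* Ω, F i v = σ (π i) • v} = ⊤) →
    ∀ {n : ℕ} (t : Fin n → I) (s : ℕ), 0 < s → ∀ c : Ω, c ^ 2 = ∏ k, (q (t k) : Ω) →
    ∀ φ : MultilinearMap Ω (fun k => V (t k)) Ω,
      (∀ v, φ (fun k => (F (t k) ^ s) (v k)) = c ^ s * φ v) →
      φ ∈ Submodule.span Ω {ψ | IsProductOfPairings V F (fun i => (q i : Ω)) t ψ}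

/-- a finite Galois extension through which all embeddings factor -/
theorem exists_common' {I : Type*} [Finite I] (E : I → Type*) [∀ i, Field (E i)]
    [∀ i, NumberField (E i)] :
    ∃ (L : Type) (_ : Field L) (_ : Algebra ℚ L) (_ : FiniteDimensional ℚ L) (_ : IsGalois ℚ L),
      ∀ {Ω : Type} [Field Ω] [Algebra ℚ Ω] (e : L →ₐ[ℚ] Ω) (i : I) (σ : E i →ₐ[ℚ] Ω),
        ∃ σ' : E i →ₐ[ℚ] L, e.comp σ' = σ := by
  cases nonempty_fintype I
  let pb : ∀ i, PowerBasis ℚ (E i) := fun i => Field.powerBasisOfFiniteOfSeparable ℚ (E i)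
  let f : I → Polynomial ℚ := fun i => minpoly ℚ (pb i).gen
  have hint : ∀ i, IsIntegral ℚ (pb i).gen := fun i => (pb i).isIntegral_gen
  have hf0 : ∀ i, f i ≠ 0 := fun i => minpoly.ne_zero (hint i)
  obtain ⟨L, iF, iA, iFin, iGal, hsplit⟩ := exists_splitting f hf0
  refine ⟨L, iF, iA, iFin, iGal, ?_⟩
  intro Ω _ _ e i σ
  have h1 : Polynomial.aeval (σ (pb i).gen) (f i) = 0 := by
    rw [Polynomial.aeval_algHom_apply, minpoly.aeval, map_zero]
  obtain ⟨x, hx, hxy⟩ := exists_root_lift (hf0 i) (hsplit i) e _ h1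
  refine ⟨(pb i).lift x hx, ?_⟩
  apply (pb i).algHom_ext
  change e ((pb i).lift x hx (pb i).gen) = _
  rw [(pb i).lift_gen, hxy]

end Pool.Agent.H485R3.Exact
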