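import Mathlib
import Pool.Agent.H485R3.Exact.Defs

/-!
# Exotic Tate classes on products of two Weil numbers of K3 type
-/

set_option autoImplicit false

namespace Pool.Agent.H485R3.Exact

open NumberField NumberField.IsCMField Pool.Agent.H485R3 Pool.Agent.H485R3.Hodge
  Pool.Agent.H925R2

theorem norm_p_padic (p : ℕ) [Fact p.Prime] : ‖(p : PadicAlgCl p)‖ = (p : ℝ)⁻¹ := by
  have h1 : (p : PadicAlgCl p) = algebraMap ℚ_[p] (PadicAlgCl p) (p : ℚ_[p]) := by simp
  rw [h1, PadicAlgCl.norm_extends, Padic.norm_p]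

/-- logarithmic deviation from the middle slope -/
noncomputable def ldev (p : ℕ) [Fact p.Prime] (a : ℕ) (α : PadicAlgCl p) : ℝ :=
  2 * Real.log ‖α‖ + a * Real.log p

theorem ldev_eq_zero_iff (p : ℕ) [Fact p.Prime] (a : ℕ) (α : PadicAlgCl p) (hα : α ≠ 0) :
    ldev p a α = 0 ↔ ‖α‖ ^ 2 = ((p : ℝ) ^ a)⁻¹ := by
  have hp : (0 : ℝ) < p := by exact_mod_cast (Fact.out : p.Prime).pos
  have hα' : 0 < ‖α‖ := norm_pos_iff.2 hα
  have h1 : ldev p a α = Real.log (‖α‖ ^ 2) - Real.log (((p : ℝ) ^ a)⁻¹) := by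
    unfold ldev
    rw [Real.log_inv, Real.log_pow, Real.log_pow]
    push_cast
    ring
  rw [h1, sub_eq_zero]
  constructor
  · intro h
    exact Real.log_injOn_pos (Set.mem_Ioi.2 (by positivity)) (Set.mem_Ioi.2 (by positivity)) h
  · intro h
    rw [h]

theorem ldev_pos_iff (p : ℕ) [Fact p.Prime] (a : ℕ) (α : PadicAlgCl p) (hα : α ≠ 0) :
    0 < ldev p a α ↔ ((p : ℝ) ^ a)⁻¹ < ‖α‖ ^ 2 := by
  have hp : (0 : ℝ) < p := by exact_mod_cast (Fact.out : p.Prime).pos
  have hα' : 0 < ‖α‖ := norm_pos_iff.2 hα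
  have h1 : ldev p a α = Real.log (‖α‖ ^ 2) - Real.log (((p : ℝ) ^ a)⁻¹) := by
    unfold ldev
    rw [Real.log_inv, Real.log_pow, Real.log_pow]
    push_cast
    ring
  rw [h1, sub_pos, Real.log_lt_log_iff (by positivity) (by positivity)]

theorem ldev_conj (p : ℕ) [Fact p.Prime] (a : ℕ) (α β : PadicAlgCl p)
    (h : α * β = (p : PadicAlgCl p) ^ a) : ldev p a β = - ldev p a α := by
  have hp : (0 : ℝ) < p := by exact_mod_cast (Fact.out : p.Prime).pos
  have hp0 : (p : PadicAlgCl p) ≠ 0 := by exact_mod_cast (Fact.out : p.Prime).ne_zero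
  have hα : α ≠ 0 := by
    rintro rfl
    rw [zero_mul] at h
    exact pow_ne_zero _ hp0 h.symm
  have hβ : β ≠ 0 := by
    rintro rfl
    rw [mul_zero] at h
    exact pow_ne_zero _ hp0 h.symm
  have h1 := congrArg (fun z => Real.log ‖z‖) h
  simp only [norm_mul, norm_pow] at h1
  rw [Real.log_mul (norm_ne_zero_iff.2 hα) (norm_ne_zero_iff.2 hβ), Real.log_pow, norm_p_padic,
    Real.log_inv] at h1
  unfold ldev
  linarith

section

variable {K : Type*} [Field K] [NumberField K] [IsCMField K] (p : ℕ) [Fact p.Prime] (a : ℕ)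
  (x : K →+* ℚ_[p]) (π : K)

/-- the deviation at `x` is a positive integral multiple of `log p` -/
theorem exists_m (h : IsK3Type p a x π) : ∃ m : ℕ, 0 < m ∧
    ldev p a (algebraMap ℚ_[p] (PadicAlgCl p) (x π)) = m * Real.log p := by
  have hp : 1 < (p : ℝ) := by exact_mod_cast (Fact.out : p.Prime).one_lt
  have hlog : 0 < Real.log p := Real.log_pos hp
  obtain ⟨h1, h2, h3, h4⟩ := h
  have hx0 : x π ≠ 0 := by
    intro h0
    rw [h0, norm_zero, zero_pow two_ne_zero] at h3
    have : (0 : ℝ) < ((p : ℝ) ^ a)⁻¹ := by positivity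
    exact absurd this (not_lt.2 h3.le)
  have h5 : ldev p a (algebraMap ℚ_[p] (PadicAlgCl p) (x π)) =
      ((a - 2 * (x π).valuation : ℤ) : ℝ) * Real.log p := by
    unfold ldev
    rw [PadicAlgCl.norm_extends, Padic.norm_eq_zpow_neg_valuation hx0, Real.log_zpow]
    push_cast
    ring
  have h6 : 0 < ldev p a (algebraMap ℚ_[p] (PadicAlgCl p) (x π)) := by
    rw [ldev_pos_iff _ _ _ ((map_ne_zero _).2 hx0), PadicAlgCl.norm_extends]
    exact h3
  have h7 : 0 < (a - 2 * (x π).valuation : ℤ) := by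
    rw [h5] at h6
    have := (mul_pos_iff_of_pos_right hlog).1 h6
    exact_mod_cast this
  refine ⟨(a - 2 * (x π).valuation : ℤ).toNat, by omega, ?_⟩
  rw [h5]
  congr 1
  have h8 := Int.toNat_of_nonneg h7.le
  exact_mod_cast h8.symm

/-- the deviation at all embeddings through a common field -/
theorem ldev_comp (hK : IsK3Type p a x π) {L : Type*} [Field L] [Algebra ℚ L]
    (e₀ : L →ₐ[ℚ] PadicAlgCl p) (c : L ≃ₐ[ℚ] L)
    (hcs : ∀ (τ : K →ₐ[ℚ] L) (z : K), c (τ z) = τ (complexConj K z))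
    (s : K →ₐ[ℚ] L) (hs : ∀ z, e₀ (s z) = algebraMap ℚ_[p] (PadicAlgCl p) (x z)) (m : ℝ)
    (hm : ldev p a (algebraMap ℚ_[p] (PadicAlgCl p) (x π)) = m) (τ : K →ₐ[ℚ] L)
    [Decidable (τ = act 1 s)] [Decidable (τ = act c s)] :
    ldev p a (e₀ (τ π)) = m * ((if τ = act 1 s then 1 else 0) -
      (if τ = act c s then 1 else 0)) := by
  classical
  have hs1 : act 1 s = s := rfl
  have hmul : π * complexConj K π = (p : K) ^ a := mul_conj_eq p π a hK.2.1
  have hp0 : (p : K) ≠ 0 := by exact_mod_cast (Fact.out : p.Prime).ne_zero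
  have hπ0 : π ≠ 0 := by
    rintro rfl
    rw [zero_mul] at hmul
    exact pow_ne_zero _ hp0 hmul.symm
  have hconjne : act c s ≠ s := by
    intro h
    apply complexConj_ne_one K
    ext z
    apply s.toRingHom.injective
    change s (complexConj K z) = s z
    rw [← hcs]
    exact DFunLike.congr_fun h z
  by_cases h1 : τ = act 1 s
  · rw [if_pos h1, if_neg (by rw [h1]; exact hconjne.symm), h1, hs1, hs, hm]
    ring
  · rw [if_neg h1]
    by_cases h2 : τ = act c s
    · rw [if_pos h2, h2]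
      have h3 : act c s π = s (complexConj K π) := hcs s π
      rw [h3]
      have h4 : e₀ (s π) * e₀ (s (complexConj K π)) = (p : PadicAlgCl p) ^ a := by
        rw [← map_mul, ← map_mul, hmul]
        simp
      rw [ldev_conj p a _ _ h4, hs, hm]
      ring
    · rw [if_neg h2]
      have h3 := hK.2.2.2 (e₀.toRingHom.comp τ.toRingHom) (by
        intro h
        apply h1
        rw [hs1]
        ext z
        apply e₀.toRingHom.injective
        change e₀ (τ z) = e₀ (s z)
        rw [hs]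
        exact DFunLike.congr_fun h z) (by
        intro h
        apply h2
        ext z
        apply e₀.toRingHom.injective
        change e₀ (τ z) = e₀ (act c s z)
        have h4 : act c s z = s (complexConj K z) := hcs s z
        rw [h4, hs]
        have h5 : e₀ (τ (complexConj K (complexConj K z))) =
            algebraMap ℚ_[p] (PadicAlgCl p) (x (complexConj K z)) :=
          DFunLike.congr_fun h (complexConj K z)
        rw [complexConj_apply_apply] at h5
        exact h5)
      have h4 : ldev p a (e₀ (τ π)) = 0 := by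
        rw [ldev_eq_zero_iff _ _ _ ((map_ne_zero _).2 ((map_ne_zero _).2 hπ0))]
        exact h3
      rw [h4]
      ring

end

end Pool.Agent.H485R3.Exact
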