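import Mathlib
import Pool.Agent.H485R3.Exact.Exotic

/-!
# Exotic Tate classes on products of two Weil numbers of K3 type: main theorem
-/

set_option autoImplicit false

namespace Pool.Agent.H485R3.Exact

open NumberField NumberField.IsCMField Pool.Agent.H485R3 Pool.Agent.H485R3.Hodge
  Pool.Agent.H925R2

/-- A number all of whose absolute values are one is a root of unity. -/
theorem root_of_unity {L : Type*} [Field L] [Algebra ℚ L] [FiniteDimensional ℚ L] [Normal ℚ L]
    (ξ : L) (h1 : ∀ (l : ℕ) [Fact l.Prime] (e : L →ₐ[ℚ] PadicAlgCl l), ‖e ξ‖ ≤ 1)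
    (h2 : ∀ φ : L →ₐ[ℚ] ℂ, ‖φ ξ‖ = 1) : ∃ r : ℕ, 0 < r ∧ ξ ^ r = 1 :=
  pow_eq_one_of_norm ξ (isIntegral_of_norm_le ξ h1) h2

/-- At primes different from `p` Weil numbers are units. -/
theorem norm_eq_one_of_ne {K : Type*} [Field K] [NumberField K] [IsCMField K] (p : ℕ)
    [Fact p.Prime] (a : ℕ) (π : K) (hint : IsIntegral ℤ π)
    (hπ : ∀ φ : K →+* ℂ, ‖φ π‖ ^ 2 = (p : ℝ) ^ a) (l : ℕ) [Fact l.Prime] (hl : l ≠ p)
    (y : K →+* PadicAlgCl l) : ‖y π‖ = 1 := by
  have hmul : π * complexConj K π = (p : K) ^ a := mul_conj_eq p π a hπ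
  have h1 : ‖y π‖ ≤ 1 := norm_le_one_of_isIntegral l _ (hint.map y.toIntAlgHom)
  have h2 : ‖y (complexConj K π)‖ ≤ 1 := norm_le_one_of_isIntegral l _
    ((hint.map ((complexConj K : K →+* K).toIntAlgHom)).map y.toIntAlgHom)
  have h3 : ‖y π‖ * ‖y (complexConj K π)‖ = 1 := by
    rw [← norm_mul, ← map_mul, hmul, map_pow, map_natCast, norm_pow]
    have h4 : (p : PadicAlgCl l) = algebraMap ℚ_[l] (PadicAlgCl l) (p : ℚ_[l]) := by simp
    rw [h4, PadicAlgCl.norm_extends]
    have h5 : ‖(p : ℚ_[l])‖ = 1 := by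
      rw [Padic.norm_natCast_eq_one_iff]
      exact (Nat.coprime_primes (Fact.out : l.Prime) (Fact.out : p.Prime)).2 hl
    rw [h5, one_pow]
  nlinarith [norm_nonneg (y π), norm_nonneg (y (complexConj K π))]

theorem real_of_generate {I : Type} [Finite I] {K : I → Type} [∀ i, Field (K i)]
    [∀ i, NumberField (K i)] [∀ i, IsCMField (K i)] (p : ℕ) [Fact p.Prime]
    (x : ∀ i, K i →+* ℚ_[p]) (a : I → ℕ) (π : ∀ i, K i)
    (hπ : ∀ i, IsK3Type p (a i) (x i) (π i)) (hgen : PairingsGenerate π (fun i => p ^ a i))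
    (i₁ i₂ : I) (hi : i₁ ≠ i₂) (y₁ : K i₁) (y₂ : K i₂) (hy : x i₁ y₁ = x i₂ y₂) :
    complexConj (K i₁) y₁ = y₁ := by
  classical
  by_contra hy₁
  have hp : p.Prime := Fact.out
  have hppos : (0 : ℝ) < p := by exact_mod_cast hp.pos
  obtain ⟨L, _, _, _, _, hlift⟩ := exists_common' K
  let e₀ : L →ₐ[ℚ] PadicAlgCl p := IsAlgClosed.lift
  let ι : L →ₐ[ℚ] ℂ := IsAlgClosed.lift
  let x' : ∀ i, K i →ₐ[ℚ] PadicAlgCl p := fun i =>
    ((algebraMap ℚ_[p] (PadicAlgCl p)).comp (x i)).toRatAlgHom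
  choose s hs using fun i => hlift e₀ i (x' i)
  have hsx : ∀ i z, e₀ (s i z) = algebraMap ℚ_[p] (PadicAlgCl p) (x i z) := fun i z =>
    DFunLike.congr_fun (hs i) z
  obtain ⟨c, hc⟩ := exists_conj ι
  have hcs : ∀ (i : I) (τ : K i →ₐ[ℚ] L) (z : K i), c (τ z) = τ (complexConj (K i) z) := by
    intro i τ z
    apply ι.toRingHom.injective
    change ι (c (τ z)) = (ι.comp τ) (complexConj (K i) z)
    rw [← hc, ← conjEmb_eq]
    rfl
  have hcc : ∀ (i : I) (g : L ≃ₐ[ℚ] L) (z : L), z ∈ (s i).fieldRange → c (g z) = g (c z) := by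
    rintro i g _ ⟨y, rfl⟩
    have h1 := hcs i (act g (s i)) y
    change c (g (s i y)) = g (s i (complexConj (K i) y)) at h1
    change c (g (s i y)) = g (c (s i y))
    rw [h1, hcs]
  have hc2 : ∀ z, c (c z) = z := by
    intro z
    apply ι.toRingHom.injective
    change ι (c (c z)) = ι z
    rw [← hc, ← hc, Complex.conj_conj]
  let F₀ : IntermediateField ℚ L := (s i₁).fieldRange ⊓ (s i₂).fieldRange
  have hF₁ : F₀ ≤ (s i₁).fieldRange := inf_le_left
  have hF₂ : F₀ ≤ (s i₂).fieldRange := inf_le_right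
  have hcF : ∀ z ∈ F₀, c z ∈ F₀ := by
    intro z hz
    obtain ⟨⟨y₁, h1⟩, ⟨y₂, h2⟩⟩ := (IntermediateField.mem_inf.1 hz)
    refine IntermediateField.mem_inf.2 ⟨⟨complexConj (K i₁) y₁, ?_⟩,
      ⟨complexConj (K i₂) y₂, ?_⟩⟩
    · rw [← h1]
      exact (hcs i₁ (s i₁) y₁).symm
    · rw [← h2]
      exact (hcs i₂ (s i₂) y₂).symm
  obtain ⟨x₀, hx₀, hx₀c⟩ : ∃ x₀ ∈ F₀, c x₀ ≠ x₀ := by
    have h12 : s i₁ y₁ = s i₂ y₂ := by
      apply e₀.toRingHom.injective
      change e₀ (s i₁ y₁) = e₀ (s i₂ y₂)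
      rw [hsx, hsx, hy]
    refine ⟨s i₁ y₁, IntermediateField.mem_inf.2 ⟨⟨y₁, rfl⟩, ⟨y₂, h12.symm⟩⟩, ?_⟩
    intro h
    apply hy₁
    apply (s i₁).toRingHom.injective
    change s i₁ (complexConj (K i₁) y₁) = s i₁ y₁
    rw [← hcs, h]
  choose w hw hwd using fun i => exists_m p (a i) (x i) (π i) (hπ i)
  let A₁ := Ext (s i₁) F₀ 1
  let A₂ := Ext (s i₂) F₀ c
  let κ := (A₁ × Fin (w i₂)) ⊕ (A₂ × Fin (w i₁))
  let T : κ → I := Sum.elim (fun _ => i₁) (fun _ => i₂)
  let σκ : ∀ k : κ, K (T k) →ₐ[ℚ] L := fun k =>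
    match k with
    | Sum.inl a => a.1.1
    | Sum.inr b => b.1.1
  let n := Fintype.card κ
  let e : Fin n ≃ κ := (Fintype.equivFin κ).symm
  let P : (L ≃ₐ[ℚ] L) → (L ≃ₐ[ℚ] L) → (L ≃ₐ[ℚ] L) → Prop := fun g d d' =>
    ∀ z ∈ F₀, g (d z) = d' z
  let D : ∀ i, (K i →ₐ[ℚ] L) → ℝ := fun i τ => ldev p (a i) (e₀ (τ (π i)))
  have hcount : ∀ (i : I) (hF : F₀ ≤ (s i).fieldRange) (d d' g : L ≃ₐ[ℚ] L),
      ∑ b : Ext (s i) F₀ d, (if act g b.1 = act d' (s i) then (1 : ℝ) else 0) =
        if P g d d' then 1 else 0 := by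
    intro i hF d d' g
    have h1 := count (s i) F₀ hF d d' g
    have h2 := congrArg (Int.cast : ℤ → ℝ) h1
    push_cast at h2
    convert h2 using 2
  have hS₁ : ∀ g : L ≃ₐ[ℚ] L, ∑ b : A₁, D i₁ (act g b.1) =
      (w i₁ * Real.log p) * ((if P g 1 1 then 1 else 0) - (if P g 1 c then 1 else 0)) := by
    intro g
    rw [← hcount i₁ hF₁ 1 1 g, ← hcount i₁ hF₁ 1 c g, ← Finset.sum_sub_distrib, Finset.mul_sum]
    refine Finset.sum_congr rfl fun b _ => ?_
    exact ldev_comp p (a i₁) (x i₁) (π i₁) (hπ i₁) e₀ c (hcs i₁) (s i₁) (hsx i₁) _ (hwd i₁) _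
  have hS₂ : ∀ g : L ≃ₐ[ℚ] L, ∑ b : A₂, D i₂ (act g b.1) =
      (w i₂ * Real.log p) * ((if P g c 1 then 1 else 0) - (if P g c c then 1 else 0)) := by
    intro g
    rw [← hcount i₂ hF₂ c 1 g, ← hcount i₂ hF₂ c c g, ← Finset.sum_sub_distrib, Finset.mul_sum]
    refine Finset.sum_congr rfl fun b _ => ?_
    exact ldev_comp p (a i₂) (x i₂) (π i₂) (hπ i₂) e₀ c (hcs i₂) (s i₂) (hsx i₂) _ (hwd i₂) _
  have hPcc : ∀ g, P g c c ↔ P g 1 1 := by
    intro g
    constructor
    · intro h z hz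
      have h1 := h (c z) (hcF z hz)
      rw [hc2] at h1
      exact h1
    · intro h z hz
      exact h (c z) (hcF z hz)
  have hPc1 : ∀ g, P g c 1 ↔ P g 1 c := by
    intro g
    constructor
    · intro h z hz
      have h1 : g (c z) = z := h z hz
      change g z = c z
      rw [← hcc i₁ g z (hF₁ hz)] at h1
      have h2 := congrArg c h1
      rw [hc2] at h2
      exact h2
    · intro h z hz
      have h1 : g (c z) = c (c z) := h (c z) (hcF z hz)
      change g (c z) = z
      rw [h1, hc2]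
  have hsumκ : ∀ f : κ → ℝ, ∑ k : Fin n, f (e k) =
      ∑ b : A₁, ∑ j : Fin (w i₂), f (Sum.inl (b, j)) +
        ∑ b : A₂, ∑ j : Fin (w i₁), f (Sum.inr (b, j)) := by
    intro f
    rw [Equiv.sum_comp e f, Fintype.sum_sum_type, Fintype.sum_prod_type, Fintype.sum_prod_type]
  -- the balance at all places over `p`
  have hbal : ∀ g : L ≃ₐ[ℚ] L, ∑ k, D (T (e k)) (act g (σκ (e k))) = 0 := by
    intro g
    rw [hsumκ (fun k => D (T k) (act g (σκ k)))]
    change ∑ b : A₁, ∑ _j : Fin (w i₂), D i₁ (act g b.1) +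
      ∑ b : A₂, ∑ _j : Fin (w i₁), D i₂ (act g b.1) = 0
    simp only [Finset.sum_const, Finset.card_univ, Fintype.card_fin, nsmul_eq_mul]
    rw [← Finset.mul_sum, ← Finset.mul_sum, hS₁, hS₂]
    simp only [hPcc, hPc1]
    ring
  -- the multiplicative relation
  let N : L := ∏ k, σκ (e k) (π (T (e k)))
  let Q : ℕ := ∏ k, p ^ a (T (e k))
  have hQ0 : Q ≠ 0 := Finset.prod_ne_zero_iff.2 fun k _ => pow_ne_zero _ hp.ne_zero
  have hpa : ∀ i, π i * complexConj (K i) (π i) = (p : K i) ^ a i := fun i =>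
    mul_conj_eq p (π i) (a i) (hπ i).2.1
  have hπ0 : ∀ i, π i ≠ 0 := by
    intro i h0
    have h1 := hpa i
    rw [h0, zero_mul] at h1
    exact pow_ne_zero _ (by exact_mod_cast hp.ne_zero) h1.symm
  have hN0 : N ≠ 0 := Finset.prod_ne_zero_iff.2 fun k _ => (map_ne_zero _).2 (hπ0 _)
  obtain ⟨r, hr, hξ⟩ : ∃ r : ℕ, 0 < r ∧ (N ^ 2 / (Q : L)) ^ r = 1 := by
    apply root_of_unity
    · intro l _ el
      rw [map_div₀, map_pow, map_natCast, norm_div, norm_pow]
      by_cases hl : l = p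
      · subst hl
        obtain ⟨g, hg⟩ := exists_gal e₀ el
        have h1 := hbal g
        have hNpos : 0 < ‖el N‖ := norm_pos_iff.2 ((map_ne_zero _).2 hN0)
        have hQpos : 0 < ‖(Q : PadicAlgCl l)‖ := norm_pos_iff.2 (by exact_mod_cast hQ0)
        have h2 : Real.log ‖el N‖ = ∑ k, Real.log ‖e₀ (act g (σκ (e k)) (π (T (e k))))‖ := by
          rw [← Real.log_prod]
          · simp only [N]
            rw [map_prod, norm_prod]
            congr 1
            exact Finset.prod_congr rfl fun k _ => by rw [hg]; rfl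
          · intro k _
            exact norm_ne_zero_iff.2 ((map_ne_zero _).2 ((map_ne_zero _).2 (hπ0 _)))
        have h3 : Real.log ‖(Q : PadicAlgCl l)‖ = - ∑ k, (a (T (e k)) : ℝ) * Real.log l := by
          simp only [Q]
          push_cast
          rw [norm_prod, Real.log_prod]
          · rw [← Finset.sum_neg_distrib]
            refine Finset.sum_congr rfl fun k _ => ?_
            rw [norm_pow, Real.log_pow, norm_p_padic, Real.log_inv]
            ring
          · intro k _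
            rw [norm_pow, norm_p_padic]
            positivity
        have h4 : Real.log (‖el N‖ ^ 2 / ‖(Q : PadicAlgCl l)‖) = 0 := by
          rw [Real.log_div (by positivity) hQpos.ne', Real.log_pow, h2, h3]
          simp only [D, ldev] at h1
          rw [Finset.sum_add_distrib, ← Finset.mul_sum] at h1
          push_cast
          linarith
        have h5 : ‖el N‖ ^ 2 / ‖(Q : PadicAlgCl l)‖ = 1 := by
          have h6 : 0 < ‖el N‖ ^ 2 / ‖(Q : PadicAlgCl l)‖ := by positivity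
          exact Real.eq_one_of_pos_of_log_eq_zero h6 h4
        exact h5.le
      · have h1 : ‖el N‖ = 1 := by
          simp only [N]
          rw [map_prod, norm_prod]
          refine Finset.prod_eq_one fun k _ => ?_
          exact norm_eq_one_of_ne p (a (T (e k))) (π (T (e k))) (hπ _).1 (hπ _).2.1 l hl
            (el.toRingHom.comp (σκ (e k)).toRingHom)
        have h2 : ‖(Q : PadicAlgCl l)‖ = 1 := by
          simp only [Q]
          push_cast
          rw [norm_prod]
          refine Finset.prod_eq_one fun k _ => ?_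
          have h4 : (p : PadicAlgCl l) = algebraMap ℚ_[l] (PadicAlgCl l) (p : ℚ_[l]) := by simp
          rw [norm_pow, h4, PadicAlgCl.norm_extends]
          have h5 : ‖(p : ℚ_[l])‖ = 1 := by
            rw [Padic.norm_natCast_eq_one_iff]
            exact (Nat.coprime_primes (Fact.out : l.Prime) (Fact.out : p.Prime)).2 hl
          rw [h5, one_pow]
        rw [h1, h2]
        norm_num
    · intro φ
      rw [map_div₀, map_pow, map_natCast, norm_div, norm_pow]
      have h1 : ‖φ N‖ ^ 2 = Q := by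
        simp only [N, Q]
        rw [map_prod, norm_prod, ← Finset.prod_pow]
        push_cast
        refine Finset.prod_congr rfl fun k _ => ?_
        exact (hπ (T (e k))).2.1 (φ.toRingHom.comp (σκ (e k)).toRingHom)
      rw [h1, Complex.norm_natCast, div_self]
      exact_mod_cast hQ0
  -- the Tate class
  obtain ⟨c₀, hc₀⟩ : ∃ c₀ : ℂ, c₀ ^ 2 = (Q : ℂ) := IsAlgClosed.exists_pow_nat_eq _ two_pos
  have hc₀0 : c₀ ≠ 0 := by
    rintro rfl
    rw [zero_pow two_ne_zero] at hc₀
    exact hQ0 (by exact_mod_cast hc₀.symm)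
  have hNc : (ι N) ^ (2 * r) = c₀ ^ (2 * r) := by
    have h1 := congrArg ι hξ
    rw [map_pow, map_div₀, map_pow, map_natCast, map_one, div_pow, ← hc₀, ← pow_mul,
      ← pow_mul] at h1
    exact (div_eq_one_iff_eq (pow_ne_zero _ hc₀0)).1 h1
  let V : I → Type := fun i => (K i →+* ℂ) → ℂ
  let F : ∀ i, V i →ₗ[ℂ] V i := fun i => LinearMap.pi fun σ => (σ (π i)) • LinearMap.proj σ
  have hFapp : ∀ i (v : V i) (σ : K i →+* ℂ), F i v σ = σ (π i) * v σ := fun i v σ => rfl
  have hFpow : ∀ i (m : ℕ) (v : V i) (σ : K i →+* ℂ), (F i ^ m) v σ = σ (π i) ^ m * v σ := by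
    intro i m
    induction m with
    | zero =>
      intro v σ
      rw [pow_zero, pow_zero, one_mul]
      rfl
    | succ m ih =>
      intro v σ
      rw [pow_succ, Module.End.mul_apply, ih, hFapp, pow_succ]
      ring
  have hFspan : ∀ i, Submodule.span ℂ {v : V i | ∃ σ : K i →+* ℂ, F i v = σ (π i) • v} = ⊤ := by
    intro i
    rw [eq_top_iff]
    intro v _
    have h1 : v = ∑ σ : K i →+* ℂ, v σ • (Pi.single σ (1 : ℂ) : V i) := by
      funext τ
      rw [Finset.sum_apply, Finset.sum_eq_single τ]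
      · simp
      · intro b _ hb
        simp [Pi.single_eq_of_ne (Ne.symm hb)]
      · intro h
        exact absurd (Finset.mem_univ _) h
    rw [h1]
    refine Submodule.sum_mem _ fun σ _ => Submodule.smul_mem _ _ (Submodule.subset_span ⟨σ, ?_⟩)
    funext τ
    rw [hFapp, Pi.smul_apply, smul_eq_mul]
    by_cases h2 : τ = σ
    · rw [h2]
    · rw [Pi.single_eq_of_ne h2, mul_zero, mul_zero]
  let t : Fin n → I := fun k => T (e k)
  let ρ : ∀ k : Fin n, K (t k) →+* ℂ := fun k => (ι.comp (σκ (e k))).toRingHom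
  let φ : MultilinearMap ℂ (fun k => V (t k)) ℂ :=
    (MultilinearMap.mkPiAlgebra ℂ (Fin n) ℂ).compLinearMap (fun k => LinearMap.proj (ρ k))
  have hφ : ∀ v, φ v = ∏ k, v k (ρ k) := by
    intro v
    change (MultilinearMap.mkPiAlgebra ℂ (Fin n) ℂ) (fun k => v k (ρ k)) = _
    rw [MultilinearMap.mkPiAlgebra_apply]
  have hc₀' : c₀ ^ 2 = ∏ k, (((p ^ a (t k) : ℕ)) : ℂ) := by
    rw [hc₀]
    simp only [Q, t]
    push_cast
    rfl
  have hmem := hgen V F hFspan t (2 * r) (by omega) c₀ hc₀' φ (by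
    intro v
    rw [hφ, hφ, ← hNc]
    have h1 : ι N = ∏ k, ρ k (π (t k)) := by
      simp only [N, map_prod]
      rfl
    rw [h1, ← Finset.prod_pow, ← Finset.prod_mul_distrib]
    exact Finset.prod_congr rfl fun k _ => hFpow _ _ _ _)
  -- evaluation at the eigenvectors
  let v₀ : ∀ k, V (t k) := fun k => Pi.single (ρ k) 1
  have hv₀ : φ v₀ = 1 := by
    rw [hφ]
    refine Finset.prod_eq_one fun k _ => ?_
    change (Pi.single (ρ k) (1 : ℂ) : V (t k)) (ρ k) = 1
    rw [Pi.single_eq_same]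
  have hFv₀ : ∀ k, F (t k) (v₀ k) = ρ k (π (t k)) • v₀ k := by
    intro k
    funext τ
    rw [hFapp, Pi.smul_apply, smul_eq_mul]
    by_cases h2 : τ = ρ k
    · rw [h2]
    · have h3 : v₀ k τ = 0 := Pi.single_eq_of_ne h2 1
      rw [h3, mul_zero, mul_zero]
  have hzero : ∀ ψ ∈ {ψ | IsProductOfPairings V F (fun i => ((p ^ a i : ℕ) : ℂ)) t ψ},
      ψ v₀ = 0 := by
    rintro ψ ⟨τ, B, h1, h2, h3, h4, h5⟩
    by_contra hne
    rw [h5] at hne
    have h6 : ∀ k, k < τ k → B k (v₀ k) (v₀ (τ k)) ≠ 0 := by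
      intro k hk
      exact (Finset.prod_ne_zero_iff.1 hne) k (Finset.mem_filter.2 ⟨Finset.mem_univ _, hk⟩)
    have h7 : ∀ k, k < τ k → ρ k (π (t k)) * ρ (τ k) (π (t (τ k))) = ((p ^ a (t k) : ℕ) : ℂ) := by
      intro k hk
      have h8 := h4 k (v₀ k) (v₀ (τ k))
      rw [hFv₀, hFv₀, map_smul, map_smul, LinearMap.smul_apply, smul_eq_mul, smul_eq_mul,
        ← mul_assoc] at h8
      have h9 := mul_right_cancel₀ (h6 k hk) h8
      exact (mul_comm _ _).trans h9
    have h8 : ∀ k, D (t k) (σκ (e k)) + D (t (τ k)) (σκ (e (τ k))) = 0 := by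
      have h9 : ∀ k, k < τ k → D (t k) (σκ (e k)) + D (t (τ k)) (σκ (e (τ k))) = 0 := by
        intro k hk
        have h10 : σκ (e k) (π (t k)) * σκ (e (τ k)) (π (t (τ k))) = (p : L) ^ a (t k) := by
          apply ι.toRingHom.injective
          change ι (σκ (e k) (π (t k)) * σκ (e (τ k)) (π (t (τ k)))) = ι ((p : L) ^ a (t k))
          rw [map_mul, map_pow, map_natCast]
          have h11 := h7 k hk
          push_cast at h11
          exact h11
        have h12 : e₀ (σκ (e k) (π (t k))) * e₀ (σκ (e (τ k)) (π (t (τ k)))) =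
            (p : PadicAlgCl p) ^ a (t k) := by
          rw [← map_mul, h10, map_pow, map_natCast]
        have h13 := ldev_conj p (a (t k)) _ _ h12
        have h14 : a (t (τ k)) = a (t k) := by rw [h3]
        simp only [D]
        rw [h14, h13]
        ring
      intro k
      rcases lt_trichotomy k (τ k) with h | h | h
      · exact h9 k h
      · exact absurd h.symm (h2 k)
      · have h10 := h9 (τ k) (by rw [h1]; exact h)
        rw [h1] at h10
        rw [add_comm]
        exact h10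
    have h9 : ∑ k, (if t k = i₁ then D (t k) (σκ (e k)) else 0) = 0 := by
      have h10 : ∑ k, (if t k = i₁ then D (t k) (σκ (e k)) else 0) =
          ∑ k, (if t (τ k) = i₁ then D (t (τ k)) (σκ (e (τ k))) else 0) :=
        (Equiv.sum_comp τ (fun k => if t k = i₁ then D (t k) (σκ (e k)) else 0)).symm
      have h11 : ∑ k, (if t k = i₁ then D (t k) (σκ (e k)) else 0) +
          ∑ k, (if t (τ k) = i₁ then D (t (τ k)) (σκ (e (τ k))) else 0) = 0 := by
        rw [← Finset.sum_add_distrib]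
        refine Finset.sum_eq_zero fun k _ => ?_
        simp only [h3 k]
        split_ifs with h12
        · have h13 := h8 k
          exact h13
        · ring
      linarith
    rw [hsumκ (fun k => if T k = i₁ then D (T k) (σκ k) else 0)] at h9
    have h10 : ∀ (b : A₂) (j : Fin (w i₁)), (if T (Sum.inr (b, j)) = i₁ then
        D (T (Sum.inr (b, j))) (σκ (Sum.inr (b, j))) else 0) = 0 :=
      fun b j => if_neg (fun h => hi h.symm)
    have h11 : ∀ (b : A₁) (j : Fin (w i₂)), (if T (Sum.inl (b, j)) = i₁ then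
        D (T (Sum.inl (b, j))) (σκ (Sum.inl (b, j))) else 0) =
        D i₁ (act 1 b.1) := fun b j => if_pos rfl
    simp only [h10, h11, Finset.sum_const_zero, add_zero, Finset.sum_const, Finset.card_univ,
      Fintype.card_fin, nsmul_eq_mul] at h9
    rw [← Finset.mul_sum, hS₁] at h9
    have h12 : P 1 1 1 := fun z _ => rfl
    have h13 : ¬ P 1 1 c := fun h => hx₀c (h x₀ hx₀).symm
    rw [if_pos h12, if_neg h13] at h9
    have h14 := hw i₁
    have h15 := hw i₂
    have h16 : 0 < Real.log p := Real.log_pos (by exact_mod_cast hp.one_lt)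
    have h17 : (w i₂ : ℝ) * (w i₁ * Real.log p * (1 - 0)) ≠ 0 := by
      have : (0 : ℝ) < w i₁ := by exact_mod_cast h14
      have : (0 : ℝ) < w i₂ := by exact_mod_cast h15
      positivity
    exact h17 h9
  have hφ0 : φ v₀ = 0 := by
    have h1 : ∀ ψ ∈ Submodule.span ℂ
        {ψ | IsProductOfPairings V F (fun i => ((p ^ a i : ℕ) : ℂ)) t ψ}, ψ v₀ = 0 := by
      intro ψ hψ
      induction hψ using Submodule.span_induction with
      | mem y h => exact hzero y h
      | zero => rfl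
      | add y z _ _ hy hz => rw [add_apply, hy, hz, add_zero]
      | smul b y _ hy => rw [smul_apply, hy, smul_zero]
    exact h1 φ hmem
  rw [hv₀] at hφ0
  exact one_ne_zero hφ0

end Pool.Agent.H485R3.Exact
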