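import Mathlib
import Pool.Agent.H485R3.Exact.ExoticMain
import Pool.Agent.H485R3.DomMain

/-!
# Products of Weil numbers of K3 type whose fields meet in real fields
-/

set_option autoImplicit false

namespace Pool.Agent.H485R3.Exact

open NumberField NumberField.IsCMField Pool.Agent.H485R3 Pool.Agent.H485R3.Hodge
  Pool.Agent.H925R2 Polynomial

theorem root_minpoly {K : Type*} [Field K] [NumberField K] {A : Type*} [Field A] [Algebra ℚ A]
    [IsAlgClosed A] (π : K) (α : A) (hα : aeval α (minpoly ℚ π) = 0) :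
    ∃ φ : K →+* A, φ π = α := by
  have h1 : α ∈ (minpoly ℚ π).rootSet A :=
    mem_rootSet.2 ⟨minpoly.ne_zero (Algebra.IsIntegral.isIntegral π), hα⟩
  rw [← NumberField.Embeddings.range_eval_eq_rootSet_minpoly K A π] at h1
  exact h1

theorem minpoly_root {K : Type*} [Field K] [NumberField K] {A : Type*} [Field A] [Algebra ℚ A]
    (π : K) (φ : K →+* A) : aeval (φ π) (minpoly ℚ π) = 0 := by
  have h1 : aeval (φ.toRatAlgHom π) (minpoly ℚ π) = 0 := by
    rw [aeval_algHom_apply, minpoly.aeval, map_zero]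
  exact h1

/-- the image of `K i` in the algebraic closure of `ℚ_p` -/
noncomputable def img {K : Type*} [Field K] [NumberField K] (p : ℕ) [Fact p.Prime]
    (x : K →+* ℚ_[p]) : IntermediateField ℚ (PadicAlgCl p) :=
  (((algebraMap ℚ_[p] (PadicAlgCl p)).comp x).toRatAlgHom : K →ₐ[ℚ] PadicAlgCl p).fieldRange

theorem generate_of_real {I : Type} [Finite I] {K : I → Type} [∀ i, Field (K i)]
    [∀ i, NumberField (K i)] [∀ i, IsCMField (K i)] (p : ℕ) [Fact p.Prime]
    (x : ∀ i, K i →+* ℚ_[p]) (a : I → ℕ) (π : ∀ i, K i)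
    (hπ : ∀ i, IsK3Type p (a i) (x i) (π i)) (M : I → IntermediateField ℚ (PadicAlgCl p))
    (hKM : ∀ i, img p (x i) ≤ M i)
    (hM : ∀ i, ∀ x ∈ M i, ∀ y : PadicAlgCl p, aeval y (minpoly ℚ x) = 0 → y ∈ M i)
    (hreal : ∀ i, ∀ z ∈ img p (x i) ⊓ ⨆ j ∈ {j | j ≠ i}, M i ⊓ img p (x j), ∀ w : ℂ,
      aeval w (minpoly ℚ z) = 0 → w.im = 0) :
    PairingsGenerate π (fun i => p ^ a i) := by
  classical
  intro Ω _ _ _ V _ _ _ F hF n t s hs c hc φ hφ
  have hp : p.Prime := Fact.out
  have hlog : 0 < Real.log p := Real.log_pos (by exact_mod_cast hp.one_lt)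
  choose m hm0 hm using fun i => exists_m p (a i) (x i) (π i) (hπ i)
  let x' : ∀ i, K i →+* PadicAlgCl p := fun i => (algebraMap ℚ_[p] (PadicAlgCl p)).comp (x i)
  let β : I → PadicAlgCl p := fun i => x' i (π i)
  let q : I → ℚ := fun i => (p : ℚ) ^ a i
  have hq : ∀ i, 0 < q i := fun i => pow_pos (by exact_mod_cast hp.pos) _
  have hqc : ∀ i, ((q i : ℚ) : PadicAlgCl p) = (p : PadicAlgCl p) ^ a i := by
    intro i
    simp only [q]
    push_cast
    rfl
  have hpa : ∀ i, π i * complexConj (K i) (π i) = (p : K i) ^ a i := fun i =>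
    mul_conj_eq p (π i) (a i) (hπ i).2.1
  have hp0 : (p : PadicAlgCl p) ≠ 0 := by exact_mod_cast hp.ne_zero
  have hβmul : ∀ i, β i * x' i (complexConj (K i) (π i)) = (p : PadicAlgCl p) ^ a i := by
    intro i
    simp only [β]
    rw [← map_mul, hpa, map_pow, map_natCast]
  have hβ0 : ∀ i, β i ≠ 0 := by
    intro i h0
    have h1 := hβmul i
    rw [h0, zero_mul] at h1
    exact pow_ne_zero _ hp0 h1.symm
  have hβ' : ∀ i, (q i : PadicAlgCl p) / β i = x' i (complexConj (K i) (π i)) := by
    intro i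
    rw [hqc, ← hβmul i, mul_div_cancel_left₀ _ (hβ0 i)]
  let u : I → PadicAlgCl p → ℚ := fun i α => if α = β i then -(m i : ℚ) else
    if α = (q i : PadicAlgCl p) / β i then (m i : ℚ) else 0
  have hval : ∀ i (α : PadicAlgCl p), 2 * (- Real.logb p ‖α‖) -
      (- Real.logb p ‖(q i : PadicAlgCl p)‖) = - ldev p (a i) α / Real.log p := by
    intro i α
    unfold ldev Real.logb
    rw [hqc, norm_pow, norm_p_padic, Real.log_pow, Real.log_inv]
    field_simp
    ring
  have hne : ∀ i, (q i : PadicAlgCl p) / β i ≠ β i := by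
    intro i h
    have h1 := ldev_conj p (a i) (β i) (x' i (complexConj (K i) (π i))) (hβmul i)
    rw [← hβ', h] at h1
    have h2 : ldev p (a i) (β i) = m i * Real.log p := hm i
    have h3 : (0 : ℝ) < m i := by exact_mod_cast hm0 i
    have h4 : 0 < (m i : ℝ) * Real.log p := mul_pos h3 hlog
    linarith
  have hu : ∀ i, ∀ α, aeval α (minpoly ℚ (π i)) = 0 → (u i α : ℝ) =
      2 * (- Real.logb p ‖α‖) - (- Real.logb p ‖(q i : PadicAlgCl p)‖) := by
    intro i α hα
    rw [hval]
    simp only [u]
    split_ifs with h1 h2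
    · rw [h1]
      have h2 : ldev p (a i) (β i) = m i * Real.log p := hm i
      rw [h2]
      push_cast
      field_simp
    · rw [h2, hβ', ldev_conj p (a i) (β i) _ (hβmul i)]
      have h2 : ldev p (a i) (β i) = m i * Real.log p := hm i
      rw [h2]
      push_cast
      field_simp
    · obtain ⟨y, rfl⟩ := root_minpoly (π i) α hα
      have hπ0 : π i ≠ 0 := by
        intro h0
        apply hβ0 i
        simp only [β]
        rw [h0, map_zero]
      have h3 : ldev p (a i) (y (π i)) = 0 := by
        rw [ldev_eq_zero_iff _ _ _ ((map_ne_zero y).2 hπ0)]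
        refine (hπ i).2.2.2 y ?_ ?_
        · intro h
          apply h1
          rw [h]
        · intro h
          apply h2
          rw [hβ']
          have h4 := DFunLike.congr_fun h (complexConj (K i) (π i))
          change y (complexConj (K i) (complexConj (K i) (π i))) = _ at h4
          rw [complexConj_apply_apply] at h4
          exact h4
      rw [h3]
      simp
  have hub : ∀ i, u i (β i) = -(m i : ℚ) := fun i => if_pos rfl
  have hKle : ∀ i, IntermediateField.adjoin ℚ {α | aeval α (minpoly ℚ (π i)) = 0 ∧ u i α ≠ 0} ≤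
      img p (x i) := by
    intro i
    rw [IntermediateField.adjoin_le_iff]
    rintro α ⟨_, h2⟩
    simp only [u] at h2
    split_ifs at h2 with h3 h4
    · rw [h3]
      exact ⟨π i, rfl⟩
    · rw [h4, hβ']
      exact ⟨complexConj (K i) (π i), rfl⟩
    · exact absurd rfl h2
  have hmain := mixed_dominant p (fun i => minpoly ℚ (π i))
    (fun i => minpoly.irreducible (Algebra.IsIntegral.isIntegral (π i))) q hq
    (by
      intro i z hz
      obtain ⟨ψ, rfl⟩ := root_minpoly (π i) z hz
      rw [(hπ i).2.1 ψ]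
      simp only [q]
      push_cast
      rfl) u hu (fun _ => 2) (fun _ => Nat.prime_two) β
    (fun i => minpoly_root (π i) (x' i))
    (by
      intro i
      rw [hub]
      have := hm0 i
      rw [neg_ne_zero]
      exact_mod_cast this.ne')
    (by
      intro i α _ h1 h2
      have h3 : u i α = 0 := by
        simp only [u]
        rw [if_neg h1, if_neg h2]
      rw [h3, padicNorm.zero]
      have : Fact (Nat.Prime 2) := ⟨Nat.prime_two⟩
      refine lt_of_le_of_ne (padicNorm.nonneg _) (Ne.symm ?_)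
      apply padicNorm.nonzero
      rw [hub, neg_ne_zero]
      exact_mod_cast (hm0 i).ne')
    (fun i => IntermediateField.adjoin ℚ {α | aeval α (minpoly ℚ (π i)) = 0 ∧ u i α ≠ 0}) M
    (fun i => rfl) (fun i => (hKle i).trans (hKM i)) hM
    (by
      intro i z hz
      refine hreal i z ?_
      rw [IntermediateField.mem_inf] at hz ⊢
      refine ⟨hKle i hz.1, ?_⟩
      have h1 : (⨆ j ∈ {j | j ≠ i}, M i ⊓ IntermediateField.adjoin ℚ
          {α | aeval α (minpoly ℚ (π j)) = 0 ∧ u j α ≠ 0}) ≤
          ⨆ j ∈ {j | j ≠ i}, M i ⊓ img p (x j) :=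
        iSup₂_mono fun j _ => inf_le_inf_left _ (hKle j)
      exact h1 hz.2) V F
    (by
      intro i
      rw [eq_top_iff, ← hF i]
      apply Submodule.span_mono
      rintro v ⟨σ, hσ⟩
      exact ⟨σ (π i), minpoly_root (π i) σ, hσ⟩) t s hs c
    (by
      rw [hc]
      refine Finset.prod_congr rfl fun k _ => ?_
      simp only [q]
      push_cast
      rfl) φ hφ
  have hfun : (fun i => ((q i : ℚ) : Ω)) = fun i => (((fun i => p ^ a i) i : ℕ) : Ω) := by
    funext i
    simp only [q]
    push_cast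
    rfl
  rw [hfun] at hmain
  exact hmain

end Pool.Agent.H485R3.Exact
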